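import Mathlib
import Pool.Agent.R520.SmallDoubling

set_option autoImplicit false

/-!
Small doubling planar sets which are almost in general position with respect to curves
(problem MP_68669d_co).

The sets are large colour classes in a random colouring of a generic projection to the plane of the
points of a sphere in a box `{0,…,N-1}^k`.
-/

open Filter
open scoped Pointwise

namespace Pool.Agent.Results.MP_68669d_co.AlmostGeneralPosition

/-- No three points of `A` are on a line. -/
def NoThreeCollinear (A : Finset (ℝ × ℝ)) : Prop :=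
  ∀ a ∈ A, ∀ b ∈ A, ∀ c ∈ A, a ≠ b → a ≠ c → b ≠ c → ¬ Collinear ℝ {a, b, c}

/-- Every curve of degree at most `d` contains at most `K` points of `A`. -/
def CurveBound (A : Finset (ℝ × ℝ)) (d K : ℕ) : Prop :=
  ∀ P : MvPolynomial (Fin 2) ℝ, P ≠ 0 → P.totalDegree ≤ d →
    (A.filter fun p => MvPolynomial.eval ![p.1, p.2] P = 0).card ≤ K

lemma pow_to_rpow {x y q : ℕ} (hq : 1 ≤ q) (h : x ^ q ≤ y ^ (q + 1)) :
    (x : ℝ) ≤ (y : ℝ) ^ (1 + 1 / (q : ℝ)) := by
  have hq' : (0 : ℝ) < q := by exact_mod_cast hq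
  have h1 : (x : ℝ) ^ (q : ℝ) ≤ ((y : ℝ) ^ (1 + 1 / (q : ℝ))) ^ (q : ℝ) := by
    rw [← Real.rpow_mul (Nat.cast_nonneg y)]
    have h2 : (1 + 1 / (q : ℝ)) * q = ((q + 1 : ℕ) : ℝ) := by
      push_cast; field_simp
    rw [h2, Real.rpow_natCast, Real.rpow_natCast]
    exact_mod_cast h
  exact (Real.rpow_le_rpow_iff (Nat.cast_nonneg x) (by positivity) hq').1 h1

/-- **Theorem.** Let `q_n ≥ 1` be any integers and let `ω` be any function tending to infinity.
Then there are finite sets `A_n` in the plane with `|A_n| → ∞`, no three points of `A_n` being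
collinear, such that `|A_n + A_n| ≤ |A_n|^(1 + 1/q_n)` for all `n`, and for all `d ≤ n` every curve
of degree at most `d` contains at most `min (11 q_n (d+1)² + 2) (ω |A_n|)` points of `A_n`.

For `q_n → ∞` this is a sequence with small doubling whose maximal numbers `M_d(A_n)` of points on
curves of degree `d` are at most `ω(|A_n|)` for `n ≥ d`, with `ω → ∞` arbitrarily slow. For
`q_n = q` constant, `M_d(A_n) ≤ 11 q (d+1)² + 2` for all `n ≥ d`, so the sequence is in general
position. -/
theorem result (q : ℕ → ℕ) (hq : ∀ n, 1 ≤ q n) (ω : ℕ → ℕ) (hω : Tendsto ω atTop atTop) :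
    ∃ A : ℕ → Finset (ℝ × ℝ),
      Tendsto (fun n => (A n).card) atTop atTop ∧
      (∀ n, NoThreeCollinear (A n)) ∧
      (∀ n, (((A n + A n).card : ℕ) : ℝ) ≤ (((A n).card : ℕ) : ℝ) ^ (1 + 1 / (q n : ℝ))) ∧
      (∀ n, ∀ d ≤ n, CurveBound (A n) d
        (min (11 * q n * (d + 1) ^ 2 + 2) (ω (A n).card))) := by
  have hM : ∀ n : ℕ, ∃ M : ℕ, ∀ x ≥ M, 11 * q n * (n + 1) ^ 2 + 2 ≤ ω x := fun n =>
    eventually_atTop.1 (hω.eventually_ge_atTop _)
  choose M hM using hM
  choose A hA1 hA2 hA3 hA4 using fun n : ℕ =>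
    Pool.Agent.R520.SD.core (q n) n (max n (M n)) (hq n)
  refine ⟨A, ?_, hA3, fun n => pow_to_rpow (hq n) (hA2 n), ?_⟩
  · exact tendsto_atTop_mono (fun n => (le_max_left _ _).trans (hA1 n)) tendsto_id
  · intro n d hn P hP hPd
    have h1 := hA4 n d hn P hP hPd
    refine le_min h1 (h1.trans (le_trans ?_ (hM n _ ((le_max_right _ _).trans (hA1 n)))))
    have : (d + 1) ^ 2 ≤ (n + 1) ^ 2 := Nat.pow_le_pow_left (by omega) 2
    have := Nat.mul_le_mul_left (11 * q n) this
    omega

end Pool.Agent.Results.MP_68669d_co.AlmostGeneralPosition
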